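import Pool.Agent.W889.FO.Main
import Pool.Agent.W889.FO.StB3
import Pool.Agent.W889.FO.St0

set_option autoImplicit false

/-!
# Vaught's conjecture is decided in one finite relational language, on highly transitive models

Vaught's conjecture (perfect-set form, all first-order theories in all countable languages, function
symbols allowed) is equivalent, for every `k`, to its restriction to those theories `T` in ONE finite
relational language, with three relation symbols of arity `k + 1` and four of arity `2 (k + 1)`, for
which EVERY model of `T` with universe `ℕ` is `k`-transitive (its automorphism group is transitive on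
the `k`-tuples of distinct elements) and without algebraicity (over a finite set `F` no element
outside `F` has a finite orbit).

Infinitely many symbols cannot be coded in a finite language without nonstandard codes (by
compactness); the models of the coding theories are the coded structures together with some junk,
which is arranged so that each structure is coded by countably many models up to isomorphism.

The single reductions (from functions to relations, from arbitrary relations to finitely many unary
and binary ones, from a relational language to `k`-transitive structures without algebraicity) are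
those of the project `Pool.Agent.W889.FO` of the starting library, which were never handed in; here
they are composed.
-/

namespace Pool.Agent.Results.MP_5df2c5_lc.OneFiniteLanguage

open FirstOrder FirstOrder.Language

/-- The dichotomy for the theory `T`: the models with universe `ℕ` fall into countably many
isomorphism classes, or a continuous map from the Cantor space to the space of models has pairwise
non-isomorphic values. -/
def Dichotomy (L : FirstOrder.Language.{0, 0}) (T : L.Theory) : Prop :=
  (∃ g : ℕ → L.Structure ℕ, ∀ S : L.Structure ℕ,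
      @FirstOrder.Language.Theory.Model L ℕ S T →
        ∃ n : ℕ, Nonempty (@FirstOrder.Language.Equiv L ℕ ℕ S (g n))) ∨
  (∃ f : (ℕ → Bool) → L.Structure ℕ,
      (∀ x : ℕ → Bool, @FirstOrder.Language.Theory.Model L ℕ (f x) T) ∧
      (∀ x y : ℕ → Bool,
          Nonempty (@FirstOrder.Language.Equiv L ℕ ℕ (f x) (f y)) → x = y) ∧
      (∀ (n : ℕ) (R : L.Relations n) (a : Fin n → ℕ),
          IsClopen {x : ℕ → Bool | @FirstOrder.Language.Structure.RelMap L ℕ (f x) n R a}) ∧
      (∀ (n : ℕ) (F : L.Functions n) (a : Fin n → ℕ) (b : ℕ),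
          IsOpen {x : ℕ → Bool | @FirstOrder.Language.Structure.funMap L ℕ (f x) n F a = b}))

/-- Vaught's conjecture, perfect-set form, for all theories in all countable languages. -/
def VaughtConjecture : Prop :=
  ∀ L : FirstOrder.Language.{0, 0}, Countable L.Symbols → ∀ T : L.Theory, Dichotomy L T

/-- The automorphism group of the structure is transitive on the `k`-tuples of distinct elements. -/
def Transitive {L : FirstOrder.Language.{0, 0}} (k : ℕ) (S : L.Structure ℕ) : Prop :=
  ∀ x y : Fin k → ℕ, Function.Injective x → Function.Injective y →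
    ∃ σ : @FirstOrder.Language.Equiv L ℕ ℕ S S, ∀ i, σ (x i) = y i

/-- No element outside a finite set `F` has a finite orbit under the automorphisms that fix the
elements of `F`. -/
def NoAlgebraicity {L : FirstOrder.Language.{0, 0}} (S : L.Structure ℕ) : Prop :=
  ∀ (F : Finset ℕ) (a : ℕ), a ∉ F →
    {b : ℕ | ∃ σ : @FirstOrder.Language.Equiv L ℕ ℕ S S, (∀ c ∈ F, σ c = c) ∧ σ a = b}.Infinite

/-- The language has `p` relation symbols of arity `a`, `q` relation symbols of arity `b`, and no
other symbols. -/
def IsLanguage (L : FirstOrder.Language.{0, 0}) (p a q b : ℕ) : Prop :=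
  L.IsRelational ∧ ∃ R : Fin p ⊕ Fin q → Σ n, L.Relations n,
    Function.Bijective R ∧ (∀ i, (R (Sum.inl i)).1 = a) ∧ ∀ i, (R (Sum.inr i)).1 = b

lemma IsLanguage.countable {L : FirstOrder.Language.{0, 0}} {p a q b : ℕ}
    (h : IsLanguage L p a q b) : Countable L.Symbols := by
  obtain ⟨h1, R, h2, -⟩ := h
  have e1 : Countable (Σ n, L.Relations n) := h2.2.countable
  have e2 : Countable (Σ n, L.Functions n) := by
    have : ∀ n, IsEmpty (L.Functions n) := h1
    infer_instance
  exact inferInstanceAs (Countable ((Σ n, L.Functions n) ⊕ Σ n, L.Relations n))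

open Pool.Agent.W889.FO in
lemma full_of_LB (h : ∀ T' : StB.LB.Theory, Vaught StB.LB T') : VaughtConjecture := by
  intro L hL T
  have := St0.countable_LF (L := L)
  exact St0.reduce L (fun T' => reduceAB h (St0.LF L) T') T

open Pool.Agent.W889.FO in
lemma full_of_TL (k : ℕ) (h : ∀ T' : (TL k StB.LB).Theory, (∀ S : (TL k StB.LB).Structure ℕ,
      @Theory.Model (TL k StB.LB) ℕ S T' → Transitive k S ∧ NoAlgebraicity S) →
        Vaught (TL k StB.LB) T') : VaughtConjecture := by
  refine full_of_LB fun T => ?_
  have : Countable (Σ n, StB.LB.Relations n) := StB.countable_LB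
  obtain ⟨T', hT'⟩ := ax_theory (k := k) T
  refine transfer T T' hT' (h T' fun S hS => ?_)
  have hW := ((hT' S).1 hS).1
  exact ⟨hW.transitive, hW.noAlg⟩

open Pool.Agent.W889.FO in
/-- the symbols of the language -/
def sym (k : ℕ) : Fin 3 ⊕ Fin 4 → Σ n, (TL k StB.LB).Relations n :=
  Sum.elim ![⟨_, TR.rel StB.RB.D⟩, ⟨_, TR.rel StB.RB.C⟩, ⟨_, TR.rel StB.RB.M⟩]
    ![⟨_, TR.rel StB.RB.fs⟩, ⟨_, TR.rel StB.RB.sn⟩, ⟨_, TR.rel StB.RB.sc⟩, ⟨_, TR.eqv⟩]

open Pool.Agent.W889.FO in
/-- a left inverse -/
def code (k : ℕ) : (Σ n, (TL k StB.LB).Relations n) → ℕ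
  | ⟨_, TR.rel StB.RB.D⟩ => 0
  | ⟨_, TR.rel StB.RB.C⟩ => 1
  | ⟨_, TR.rel StB.RB.M⟩ => 2
  | ⟨_, TR.rel StB.RB.fs⟩ => 3
  | ⟨_, TR.rel StB.RB.sn⟩ => 4
  | ⟨_, TR.rel StB.RB.sc⟩ => 5
  | ⟨_, TR.eqv⟩ => 6

open Pool.Agent.W889.FO in
lemma isLanguage_TL (k : ℕ) : IsLanguage (TL k StB.LB) 3 (k + 1) 4 (2 * (k + 1)) := by
  refine ⟨inferInstance, sym k, ⟨?_, ?_⟩, ?_, ?_⟩
  · have hc : ∀ i, code k (sym k i) = Sum.elim (fun i : Fin 3 => (i : ℕ))
        (fun i : Fin 4 => 3 + (i : ℕ)) i := by
      rintro (i | i) <;> fin_cases i <;> rfl
    intro i j hij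
    have := congrArg (code k) hij
    rw [hc, hc] at this
    rcases i with i | i <;> rcases j with j | j
    · exact congrArg Sum.inl (Fin.ext this)
    · have := i.2
      simp only [Sum.elim_inl, Sum.elim_inr] at *
      omega
    · have := j.2
      simp only [Sum.elim_inl, Sum.elim_inr] at *
      omega
    · refine congrArg Sum.inr (Fin.ext ?_)
      simpa using this
  · rintro ⟨n, R⟩
    cases R with
    | eqv => exact ⟨Sum.inr 3, rfl⟩
    | rel R =>
      cases R with
      | D => exact ⟨Sum.inl 0, rfl⟩
      | C => exact ⟨Sum.inl 1, rfl⟩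
      | M => exact ⟨Sum.inl 2, rfl⟩
      | fs => exact ⟨Sum.inr 0, rfl⟩
      | sn => exact ⟨Sum.inr 1, rfl⟩
      | sc => exact ⟨Sum.inr 2, rfl⟩
  · intro i; fin_cases i <;> exact one_mul (k + 1)
  · intro i; fin_cases i <;> rfl

/-- For every `k` Vaught's conjecture (perfect-set form, all theories in all countable languages) is
equivalent to its restriction to the theories in one finite relational language, with three symbols
of arity `k + 1` and four of arity `2 (k + 1)`, all of whose models with universe `ℕ` are
`k`-transitive and without algebraicity. -/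
theorem result (k : ℕ) :
    ∃ L : FirstOrder.Language.{0, 0}, IsLanguage L 3 (k + 1) 4 (2 * (k + 1)) ∧
      ((∀ T : L.Theory,
          (∀ S : L.Structure ℕ, @Theory.Model L ℕ S T → Transitive k S ∧ NoAlgebraicity S) →
            Dichotomy L T) ↔ VaughtConjecture) :=
  ⟨Pool.Agent.W889.FO.TL k Pool.Agent.W889.FO.StB.LB, isLanguage_TL k,
    fun h => full_of_TL k fun T hT => (Pool.Agent.W889.FO.vaughtF_iff _ T).1 (h T hT),
    fun h T _ => h _ (isLanguage_TL k).countable T⟩

end Pool.Agent.Results.MP_5df2c5_lc.OneFiniteLanguage
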