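import Pool.Agent.U97.SC.FOS

set_option autoImplicit false

/-!
# Vaught's conjecture for scattered relations on linear orders

Vaught's conjecture, perfect-set form, for first-order theories of linearly ordered structures with
relations of arbitrary arities which are built from scattered relations.

A binary relation `R` on a linear order `X` is *scattered* on the rectangle `A × C` if every nonempty
set `Z` of pairs in `A × C` has an element `z` such that the truth value of `R` is constant on the
part of `Z` that lies in one of the four open quadrants at `z`. This is a transfinite condition, as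
for scattered linear orders: the set of all pairs can be exhausted by removing, again and again, the
pairs at which some open quadrant is monochromatic in what is left, and no bound on the countable
number of steps is assumed. For instance, each relation that is monotone (in the same or in opposite
directions) in its two arguments is scattered, after one step. A relation `S` of arbitrary arity is
*thin* if, for all coordinates `s`, `t`, every nonempty set `Z` of pairs `(v s, v t)` with `v` in `S`
and `v s < v t` has an element such that one of the four open quadrants at this element contains no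
element of `Z`. For instance `S` is thin if it has finite crossing numbers, that is, if each point
lies strictly between two entries of only finitely many tuples in `S`; or if for each pair of
coordinates one of four chain conditions holds (`thin_of_chain` below), for example if `S` is binary
and there is no infinite sequence of pairs `x < y` in `S` such that each of the intervals `[x, y]`
contains the next one in its interior.

(1) Vaught's conjecture holds for each theory in a countable relational language such that in each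
model with universe `ℕ` there is, for suitable parameters, a definable linear order such that each
relation symbol is built from definable scattered binary relations and definable thin relations:
whenever a relation symbol holds for a tuple, this is implied by the values of finitely many
definable scattered binary relations on the pairs of entries of the tuple together with finitely many
definable thin relations that hold for entries of the tuple. (The binary relations need only be
scattered on rectangles formed by definable sets that cover all pairs.) The relations may be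
different for each tuple, and there is no bound on their number or on the transfinite ranks.
(2) In particular, Vaught's conjecture holds for each theory in a countable relational language
such that in each model there is a linear order definable with parameters such that each relation
symbol is determined by the order of the entries or has finite crossing numbers.

The proof: by a boundedness theorem for the transfinite derivative, the number of steps is bounded by
a countable ordinal on the Borel set of all models; then the monotone hulls of the layers and of the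
exceptional pairs in the layers code the structure canonically by a linear order with countably many
monotone relations and unary predicates; for these structures the dichotomy is proved in the starting
files (`Pool.Agent.Y558.MC`). Thin relations of higher arities are cut into canonical pieces, and in
each piece a tuple is determined by the pairs formed by a suitable entry and each other entry.
-/

namespace Pool.Agent.Results.MP_5df2c5_lc.ScatteredRelations

open FirstOrder

/-- `lt` is a strict linear order of `ℕ`. -/
structure StrictLinear (lt : ℕ → ℕ → Prop) : Prop where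
  irrefl : ∀ m, ¬ lt m m
  trans : ∀ m n k, lt m n → lt n k → lt m k
  total : ∀ m n, m = n ∨ lt m n ∨ lt n m

/-- The pair `z'` lies in the open quadrant at the pair `z` in the direction `(e, f)`: the first
entry of `z'` is larger than the first entry of `z` if `e` is true, and smaller if `e` is false, and
the same for the second entries and `f`. -/
def InQuadrant (lt : ℕ → ℕ → Prop) (e f : Bool) (z z' : ℕ × ℕ) : Prop :=
  (if e = true then lt z.1 z'.1 else lt z'.1 z.1) ∧ (if f = true then lt z.2 z'.2 else lt z'.2 z.2)

/-- The relation `R` is scattered on `A × C`: every nonempty set `Z` of pairs in `A × C` has an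
element `z` such that the truth value of `R` is constant on the part of `Z` in one of the four open
quadrants at `z`. -/
def Scattered (lt R : ℕ → ℕ → Prop) (A C : ℕ → Prop) : Prop :=
  ∀ Z : Set (ℕ × ℕ), Z.Nonempty → (∀ z ∈ Z, A z.1 ∧ C z.2) → ∃ z ∈ Z, ∃ e f : Bool,
    (∀ z' ∈ Z, InQuadrant lt e f z z' → R z'.1 z'.2) ∨
    (∀ z' ∈ Z, InQuadrant lt e f z z' → ¬ R z'.1 z'.2)

/-- The relation `S` is thin: for all coordinates `s`, `t`, every nonempty set `Z` of pairs
`(v s, v t)` with `v` in `S` and `v s < v t` has an element such that one of the four open quadrants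
at this element contains no element of `Z`. -/
def Thin (lt : ℕ → ℕ → Prop) {n : ℕ} (S : (Fin n → ℕ) → Prop) : Prop :=
  ∀ s t : Fin n, ∀ Z : Set (ℕ × ℕ), Z.Nonempty →
    (∀ z ∈ Z, lt z.1 z.2 ∧ ∃ v, S v ∧ v s = z.1 ∧ v t = z.2) →
      ∃ z ∈ Z, ∃ e f : Bool, ∀ z' ∈ Z, ¬ InQuadrant lt e f z z'

/-- The truth of the relation `P` at the tuple `v` is implied by the values of the binary relations
`D j`, `j ∈ J`, on the pairs of entries of `v` and by the relations `E j`, `j ∈ J'`, that hold for
tuples of entries of `v`. -/
def Implied {n : ℕ} (P : (Fin n → ℕ) → Prop) (v : Fin n → ℕ) {ι κ : Type} (J : Finset ι)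
    (D : ι → ℕ → ℕ → Prop) (J' : Finset κ) (b : κ → ℕ) (E : (j : κ) → (Fin (b j) → ℕ) → Prop) :
    Prop :=
  ∀ w : Fin n → ℕ, (∀ j ∈ J, ∀ s t, D j (v s) (v t) ↔ D j (w s) (w t)) →
    (∀ j ∈ J', ∀ c : Fin (b j) → Fin n, E j (v ∘ c) → E j (w ∘ c)) → P w

/-- Vaught's conjecture, perfect-set form, for the theory `T` in the language `L`: the models with
universe `ℕ` fall into countably many isomorphism classes, or some continuous family of models,
indexed by the Cantor space, consists of pairwise non-isomorphic models. -/
def Dichotomy (L : FirstOrder.Language.{0, 0}) (T : L.Theory) : Prop :=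
  (∃ g : ℕ → L.Structure ℕ, ∀ S : L.Structure ℕ,
      @FirstOrder.Language.Theory.Model L ℕ S T →
        ∃ n : ℕ, Nonempty (@FirstOrder.Language.Equiv L ℕ ℕ S (g n))) ∨
  (∃ f : (ℕ → Bool) → L.Structure ℕ,
      (∀ x : ℕ → Bool, @FirstOrder.Language.Theory.Model L ℕ (f x) T) ∧
      (∀ x y : ℕ → Bool,
          Nonempty (@FirstOrder.Language.Equiv L ℕ ℕ (f x) (f y)) → x = y) ∧
      (∀ (n : ℕ) (R : L.Relations n) (a : Fin n → ℕ),
          IsClopen {x : ℕ → Bool | @FirstOrder.Language.Structure.RelMap L ℕ (f x) n R a}) ∧
      (∀ (n : ℕ) (F : L.Functions n) (a : Fin n → ℕ) (b : ℕ),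
          IsOpen {x : ℕ → Bool | @FirstOrder.Language.Structure.funMap L ℕ (f x) n F a = b}))

section fo

variable {L : FirstOrder.Language.{0, 0}} (S : L.Structure ℕ) {k : ℕ} (p : Fin k → ℕ)

/-- The relation of arity `m` that the formula `φ` defines in the structure `S` with the
parameters `p`. -/
def RelN {m : ℕ} (φ : L.Formula (Fin k ⊕ Fin m)) (v : Fin m → ℕ) : Prop :=
  @FirstOrder.Language.Formula.Realize L ℕ S _ φ (Sum.elim p v)

/-- The binary relation that the formula `φ` defines in the structure `S` with the parameters `p`. -/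
def Rel (φ : L.Formula (Fin k ⊕ Fin 2)) (u v : ℕ) : Prop := RelN S p φ ![u, v]

/-- The set that the formula `φ` defines in the structure `S` with the parameters `p`. -/
def Points (φ : L.Formula (Fin k ⊕ Fin 1)) (u : ℕ) : Prop := RelN S p φ ![u]

/-- The relation that the relation symbol `R` denotes in the structure `S`. -/
def Holds {n : ℕ} (R : L.Relations n) (v : Fin n → ℕ) : Prop :=
  @FirstOrder.Language.Structure.RelMap L ℕ S n R v

end fo

/-- The truth value of the relation `P` at a tuple depends only on the order of the entries. -/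
def OrderDetermined (lt : ℕ → ℕ → Prop) {n : ℕ} (P : (Fin n → ℕ) → Prop) : Prop :=
  ∀ v w : Fin n → ℕ, (∀ s t, lt (v s) (v t) ↔ lt (w s) (w t)) → (P v ↔ P w)

/-- The chain conditions: for all coordinates `s`, `t` there is a direction `(e, f)` such that there
is no infinite sequence of tuples `g 0, g 1, ...` in `P` whose `s`-th entries are less than their
`t`-th entries and are strictly monotone in the direction `e`, and whose `t`-th entries are strictly
monotone in the direction `f`. -/
def ChainCondition (lt : ℕ → ℕ → Prop) {n : ℕ} (P : (Fin n → ℕ) → Prop) : Prop :=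
  ∀ s t : Fin n, ∃ e f : Bool, ¬ ∃ g : ℕ → Fin n → ℕ, (∀ i, P (g i) ∧ lt (g i s) (g i t)) ∧
    ∀ i, InQuadrant lt e f (g i s, g i t) (g (i + 1) s, g (i + 1) t)

/-- Each point lies strictly between two entries of only finitely many tuples in `P`. -/
def FiniteCrossing (lt : ℕ → ℕ → Prop) {n : ℕ} (P : (Fin n → ℕ) → Prop) : Prop :=
  ∀ u, {v | P v ∧ (∃ s, lt (v s) u) ∧ ∃ t, lt u (v t)}.Finite

open Pool.Agent.U97.SC in
theorem scat_of {lt R : ℕ → ℕ → Prop} {A C : ℕ → Prop} (h : Scattered lt R A C) :
    Scat false lt R A C := by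
  intro Z hZ hne
  obtain ⟨⟨m, n⟩, h1, e, f, h2⟩ := h {z | Z z.1 z.2} (by
    obtain ⟨m, n, h⟩ := hne
    exact ⟨(m, n), h⟩) (fun z hz => hZ z.1 z.2 hz)
  rcases h2 with h2 | h2
  · exact ⟨m, n, h1, e, f, true, fun _ => rfl, fun m' n' h3 h4 h5 =>
      ⟨fun _ => rfl, fun _ => h2 (m', n') h3 ⟨h4, h5⟩⟩⟩
  · exact ⟨m, n, h1, e, f, false, fun _ => rfl, fun m' n' h3 h4 h5 =>
      ⟨fun h6 => (h2 (m', n') h3 ⟨h4, h5⟩ h6).elim, fun h6 => absurd h6 (by decide)⟩⟩

open Pool.Agent.U97.SC in
theorem thin_of {lt : ℕ → ℕ → Prop} {n : ℕ} {S : (Fin n → ℕ) → Prop} (h : Thin lt S) :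
    Pool.Agent.U97.SC.Thin lt S := by
  intro s t Z _ hne
  by_cases h0 : ∃ m n, Z m n ∧ Pp lt S s t m n
  · obtain ⟨⟨m, n⟩, h1, e, f, h2⟩ := h s t {z | Z z.1 z.2 ∧ Pp lt S s t z.1 z.2} (by
      obtain ⟨m, n, h⟩ := h0
      exact ⟨(m, n), h⟩) (fun z hz => hz.2)
    exact ⟨m, n, h1.1, e, f, false, fun h3 => absurd h3 (by decide), fun m' n' h3 h4 h5 =>
      ⟨fun h6 => (h2 (m', n') ⟨h3, h6⟩ ⟨h4, h5⟩).elim, fun h6 => absurd h6 (by decide)⟩⟩
  · obtain ⟨m, n, h1⟩ := hne
    exact ⟨m, n, h1, true, true, false, fun h3 => absurd h3 (by decide), fun m' n' h3 _ _ =>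
      ⟨fun h6 => (h0 ⟨m', n', h3, h6⟩).elim, fun h6 => absurd h6 (by decide)⟩⟩

theorem order_scattered {lt : ℕ → ℕ → Prop} (h : StrictLinear lt) (A C : ℕ → Prop) :
    Scattered lt lt A C := by
  intro Z hne _
  obtain ⟨z, hz⟩ := hne
  by_cases h1 : lt z.1 z.2
  · refine ⟨z, hz, false, true, Or.inl fun z' _ h2 => ?_⟩
    have h3 : lt z'.1 z.1 := by simpa using h2.1
    have h4 : lt z.2 z'.2 := by simpa using h2.2
    exact h.trans _ _ _ h3 (h.trans _ _ _ h1 h4)
  · refine ⟨z, hz, true, false, Or.inr fun z' _ h2 h5 => ?_⟩
    have h3 : lt z.1 z'.1 := by simpa using h2.1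
    have h4 : lt z'.2 z.2 := by simpa using h2.2
    exact h1 (h.trans _ _ _ h3 (h.trans _ _ _ h5 h4))

theorem thin_of_chain {lt : ℕ → ℕ → Prop} {n : ℕ} {P : (Fin n → ℕ) → Prop}
    (h : ChainCondition lt P) : Thin lt P := by
  intro s t Z hne hZ
  obtain ⟨e, f, h1⟩ := h s t
  by_contra hcon
  push Not at hcon
  apply h1
  obtain ⟨z0, hz0⟩ := hne
  choose nx hnx1 hnx2 using fun z : Z => hcon z.1 z.2 e f
  choose w hw using fun z : Z => (hZ z.1 z.2).2
  let q : ℕ → Z := fun i => Nat.rec ⟨z0, hz0⟩ (fun _ z => ⟨nx z, hnx1 z⟩) i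
  refine ⟨fun i => w (q i), fun i => ⟨(hw (q i)).1, ?_⟩, fun i => ?_⟩
  · show lt (w (q i) s) (w (q i) t)
    rw [(hw (q i)).2.1, (hw (q i)).2.2]
    exact (hZ (q i).1 (q i).2).1
  · simp only [(hw _).2.1, (hw _).2.2]
    exact hnx2 (q i)

theorem chain_of_finite {lt : ℕ → ℕ → Prop} (hl : StrictLinear lt) {n : ℕ}
    {P : (Fin n → ℕ) → Prop} (h : FiniteCrossing lt P) : ChainCondition lt P := by
  intro s t
  refine ⟨false, true, ?_⟩
  rintro ⟨g, h1, h2⟩
  have hd : ∀ i, lt (g (i + 1) s) (g i s) := fun i => by simpa using (h2 i).1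
  have hu : ∀ i, lt (g i t) (g (i + 1) t) := fun i => by simpa using (h2 i).2
  have hd' : ∀ i j, i < j → lt (g j s) (g i s) := by
    intro i j hij
    induction hij with
    | refl => exact hd i
    | step _ ih => exact hl.trans _ _ _ (hd _) ih
  have hu' : ∀ i j, i < j → lt (g i t) (g j t) := by
    intro i j hij
    induction hij with
    | refl => exact hu i
    | step _ ih => exact hl.trans _ _ _ ih (hu _)
  have hinj : Function.Injective fun i => g (i + 1) := by
    intro i j hij
    by_contra hne
    rcases Nat.lt_or_gt_of_ne hne with h3 | h3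
    · have h4 := hd' (i + 1) (j + 1) (by omega)
      have h5 : g (i + 1) = g (j + 1) := hij
      rw [h5] at h4
      exact hl.irrefl _ h4
    · have h4 := hd' (j + 1) (i + 1) (by omega)
      have h5 : g (i + 1) = g (j + 1) := hij
      rw [h5] at h4
      exact hl.irrefl _ h4
  refine Set.infinite_of_injective_forall_mem hinj (s := {v | P v ∧ (∃ s', lt (v s') (g 0 s)) ∧
    ∃ t', lt (g 0 s) (v t')}) (fun i => ⟨(h1 _).1, ⟨s, hd' 0 (i + 1) (by omega)⟩, t, ?_⟩) (h (g 0 s))
  exact hl.trans _ _ _ (h1 0).2 (hu' 0 (i + 1) (by omega))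

/-- the first-order form -/
theorem fo_form (L : FirstOrder.Language.{0, 0}) (hL : Countable L.Symbols) (hR : L.IsRelational)
    (T : L.Theory) (hT : ∀ S : L.Structure ℕ, @FirstOrder.Language.Theory.Model L ℕ S T →
        ∃ (k : ℕ) (p : Fin k → ℕ) (φ : L.Formula (Fin k ⊕ Fin 2)), StrictLinear (Rel S p φ) ∧
          ∀ (n : ℕ) (R : L.Relations n) (v : Fin n → ℕ), Holds S R v →
            ∃ (J : Finset (L.Formula (Fin k ⊕ Fin 2))) (J' : Finset (Σ m, L.Formula (Fin k ⊕ Fin m))),
            (∀ ψ ∈ J, ∀ u v, ∃ α β, Points S p α u ∧ Points S p β v ∧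
              Scattered (Rel S p φ) (Rel S p ψ) (Points S p α) (Points S p β)) ∧
            (∀ ψ ∈ J', Thin (Rel S p φ) (RelN S p ψ.2)) ∧
            Implied (Holds S R) v J (Rel S p) J' Sigma.fst fun ψ => RelN S p ψ.2) :
    Dichotomy L T := by
  classical
  have hc : Countable (Σ n, L.Relations n) := by
    have hL' : Countable ((Σ n, L.Functions n) ⊕ Σ n, L.Relations n) := hL
    exact (Sum.inr_injective (α := Σ n, L.Functions n) (β := Σ n, L.Relations n)).countable
  rcases Pool.Agent.U97.SC.sc_dichotomy hc T (fun S hS => by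
    obtain ⟨k, p, φ, h1, h2⟩ := hT S hS
    refine ⟨k, p, φ, Rel S p, Points S p, fun _ _ _ => Iff.rfl, fun _ _ => Iff.rfl,
      ⟨h1.irrefl, h1.trans, h1.total⟩, fun n R v hv => ?_⟩
    obtain ⟨J, J', h3, h4, h5⟩ := h2 n R v hv
    have e1 : ∀ q : Σ m, L.Formula (Fin k ⊕ Fin m),
        Pool.Agent.U97.SC.RN S (List.ofFn p) ⟨q.1, k, q.2⟩ = RelN S p q.2 := by
      intro q
      funext v
      exact propext (Pool.Agent.U97.SC.rn_key S q.2 p v)
    refine ⟨J, J'.image fun q => ⟨q.1, k, q.2⟩, fun ψ hψ u v => ?_, fun q hq => ?_,
      fun w h6 h7 => h5 w h6 fun q hq c => ?_⟩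
    · obtain ⟨α, β, h6, h7, h8⟩ := h3 ψ hψ u v
      exact ⟨α, β, h6, h7, scat_of h8⟩
    · obtain ⟨q', hq', rfl⟩ := Finset.mem_image.1 hq
      rw [e1]
      exact thin_of (h4 q' hq')
    · have h8 := h7 _ (Finset.mem_image_of_mem (fun q : Σ m, L.Formula (Fin k ⊕ Fin m) =>
        (⟨q.1, k, q.2⟩ : Pool.Agent.U97.SC.FF L)) hq) c
      rw [e1] at h8
      exact h8) with h | ⟨f, h1, h2, h3⟩
  · exact Or.inl h
  · exact Or.inr ⟨f, h1, h2, h3, fun n F => isEmptyElim F⟩

theorem chain_form (L : FirstOrder.Language.{0, 0}) (hL : Countable L.Symbols)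
    (hR : L.IsRelational) (T : L.Theory)
    (hT : ∀ S : L.Structure ℕ, @FirstOrder.Language.Theory.Model L ℕ S T →
        ∃ (k : ℕ) (p : Fin k → ℕ) (φ : L.Formula (Fin k ⊕ Fin 2)), StrictLinear (Rel S p φ) ∧
          ∀ (n : ℕ) (R : L.Relations n), OrderDetermined (Rel S p φ) (Holds S R) ∨
            ChainCondition (Rel S p φ) (Holds S R)) : Dichotomy L T := by
  classical
  refine fo_form L hL hR T fun S hS => ?_
  obtain ⟨k, p, φ, h1, h2⟩ := hT S hS
  refine ⟨k, p, φ, h1, fun n R v hv => ?_⟩
  rcases h2 n R with h3 | h3
  · refine ⟨{φ}, ∅, fun ψ hψ u v => ?_, fun ψ hψ => absurd hψ (Finset.notMem_empty _),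
      fun w hw _ => ?_⟩
    · rw [Finset.mem_singleton] at hψ
      subst hψ
      have ht : ∀ u, Points S p ⊤ u := fun u => by
        show @FirstOrder.Language.Formula.Realize L ℕ S _ ⊤ _
        simp [FirstOrder.Language.Formula.Realize]
      exact ⟨⊤, ⊤, ht u, ht v, order_scattered h1 _ _⟩
    · exact (h3 v w (hw φ (Finset.mem_singleton_self φ))).1 hv
  · let ψ : L.Formula (Fin k ⊕ Fin n) := R.formula fun i => FirstOrder.Language.Term.var (Sum.inr i)
    have e1 : RelN S p ψ = Holds S R := by
      funext w
      apply propext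
      show @FirstOrder.Language.Formula.Realize L ℕ S _ ψ (Sum.elim p w) ↔ _
      rw [FirstOrder.Language.Formula.realize_rel]
      exact Iff.rfl
    refine ⟨∅, {⟨n, ψ⟩}, fun ψ hψ => absurd hψ (Finset.notMem_empty _), fun q hq => ?_,
      fun w _ hw => ?_⟩
    · rw [Finset.mem_singleton] at hq
      subst hq
      show Thin _ (RelN S p ψ)
      rw [e1]
      exact thin_of_chain h3
    · have h4 := hw ⟨n, ψ⟩ (Finset.mem_singleton_self _) id
      simp only [Function.comp_id] at h4
      rw [e1] at h4
      exact h4 hv

theorem result :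
    (∀ L : FirstOrder.Language.{0, 0}, Countable L.Symbols → L.IsRelational → ∀ T : L.Theory,
      (∀ S : L.Structure ℕ, @FirstOrder.Language.Theory.Model L ℕ S T →
        ∃ (k : ℕ) (p : Fin k → ℕ) (φ : L.Formula (Fin k ⊕ Fin 2)), StrictLinear (Rel S p φ) ∧
          ∀ (n : ℕ) (R : L.Relations n) (v : Fin n → ℕ), Holds S R v →
            ∃ (J : Finset (L.Formula (Fin k ⊕ Fin 2))) (J' : Finset (Σ m, L.Formula (Fin k ⊕ Fin m))),
            (∀ ψ ∈ J, ∀ u v, ∃ α β, Points S p α u ∧ Points S p β v ∧
              Scattered (Rel S p φ) (Rel S p ψ) (Points S p α) (Points S p β)) ∧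
            (∀ ψ ∈ J', Thin (Rel S p φ) (RelN S p ψ.2)) ∧
            Implied (Holds S R) v J (Rel S p) J' Sigma.fst fun ψ => RelN S p ψ.2) →
      Dichotomy L T) ∧
    (∀ L : FirstOrder.Language.{0, 0}, Countable L.Symbols → L.IsRelational → ∀ T : L.Theory,
      (∀ S : L.Structure ℕ, @FirstOrder.Language.Theory.Model L ℕ S T →
        ∃ (k : ℕ) (p : Fin k → ℕ) (φ : L.Formula (Fin k ⊕ Fin 2)), StrictLinear (Rel S p φ) ∧
          ∀ (n : ℕ) (R : L.Relations n), OrderDetermined (Rel S p φ) (Holds S R) ∨
            FiniteCrossing (Rel S p φ) (Holds S R)) →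
      Dichotomy L T) := by
  refine ⟨fo_form, fun L hL hR T hT => chain_form L hL hR T fun S hS => ?_⟩
  obtain ⟨k, p, φ, h1, h2⟩ := hT S hS
  refine ⟨k, p, φ, h1, fun n R => ?_⟩
  rcases h2 n R with h3 | h3
  · exact Or.inl h3
  · exact Or.inr (chain_of_finite h1 h3)

end Pool.Agent.Results.MP_5df2c5_lc.ScatteredRelations
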