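import Pool.Agent.U105.OS.Prt2
import Pool.Agent.U105.OS.Dbl2

set_option autoImplicit false

/-!
# Vaught's conjecture for infinite ordered sums of arbitrary structures

Let `L` be a countable relational language with a binary symbol `lt`. An ordered sum of structures
along a linear order is their disjoint union, where `lt` holds between the elements of different
summands as in the index order. The summands are ARBITRARY structures, and `lt` need not be an order
on them.

**Theorem 1.** Let `B` be any infinite linear order and `M` any countable structure. Vaught's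
conjecture, in its perfect-set form, holds for the complete theory of the ordered sum of copies of
`M` along `B`. Here the copies of `M` may be replaced by arbitrary pairwise elementarily equivalent
structures. Nothing is assumed about the theory of `M`, which may be a counterexample to Vaught's
conjecture.

**Theorem 2.** Let `V` be an ordered sum such that each sentence true in one of the summands is true
in infinitely many summands, except for summands with tame parts: summands for which Vaught's
conjecture holds for the infinite indecomposable summands of the models of their theory, that is,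
these have countably many isomorphism types or perfectly many. Then Vaught's conjecture holds for the
complete theory of `V`.

For instance, a structure has tame parts if it is finite, or if its theory has countably many
countable models, or perfectly many all of which are indecomposable, and each coloured linear order
has tame parts, since its indecomposable summands are points. So Vaught's conjecture holds for the
complete theory of EVERY ordered sum of finite structures, and ordered sums preserve Vaught's
conjecture for theories of indecomposable structures. Already the case of one summand is a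
generalisation of Rubin's theorem: Vaught's conjecture holds for each complete theory if it holds for
the infinite indecomposable summands of its models.

**Theorem 3.** Vaught's conjecture holds for each theory `T`, complete or not, such that each model
of `T` is elementarily equivalent to two different summands of some ordered sum which is a model
of `T`. For instance, `T` may be any theory such that `M + M` is a model of `T` for each model `M`.

**Theorem 4.** Let `T` be any theory. Call a model of `T` good if it is elementarily equivalent to an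
ordered sum such that each summand has tame parts, or satisfies only sentences that hold in
arbitrarily many summands of models of `T`. Then `T` has perfectly many models, or only countably
many good ones.

Note that the models of the theory of an ordered sum are in general not decomposed in any definable
way. The proof shows that each indecomposable summand of a model of the theory of `V` is equivalent
to an indecomposable summand of an ultrapower of `V`. Compare the starting results
`GeneralisedSums` (sums of structures from a class for which the dichotomy is known) and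
`ProperMultiples` (disjoint unions of copies of the same model, which are models of `T` up to
isomorphism).
-/

namespace Pool.Agent.Results.MP_5df2c5_lc.SmallOrUnboundedSummands

open FirstOrder FirstOrder.Language
open Pool.Agent.H623R2.VE Pool.Agent.U105.OS

variable {L : FirstOrder.Language.{0, 0}} [L.IsRelational]

/-- The structure `S` on `M` is the ordered sum, with respect to the binary symbol `lt`, of its
substructures on the fibres of `π : M → B` along the linear order `B`: `lt` holds of `(u, v)` if
`π u < π v`, and every other tuple of which a relation holds lies in one fibre. -/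
def IsSum (lt : L.Relations 2) {M B : Type} [LinearOrder B] (S : L.Structure M) (π : M → B) :
    Prop :=
  (∀ u v : M, π u < π v → S.RelMap lt (fun j => if j.val = 0 then u else v)) ∧
  ∀ (n : ℕ) (R : L.Relations n) (t : Fin n → M), S.RelMap R t → (∀ j k, π (t j) = π (t k)) ∨
    ((⟨n, R⟩ : Σ n, L.Relations n) = ⟨2, lt⟩ ∧
      ∃ u v : M, (∀ j, t j = if j.val = 0 then u else v) ∧ π u < π v)

/-- The summand with index `b`: the substructure on the fibre of `π` over `b`. -/
@[reducible] def summand {M : Type} (S : L.Structure M) {B : Type} (π : M → B) (b : B) :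
    L.Structure {u : M // π u = b} where
  funMap f := isEmptyElim f
  RelMap R t := S.RelMap R (fun k => (t k).1)

/-- The structure `S` on `M` is not an ordered sum with two or more nonempty summands. -/
def Indecomposable (lt : L.Relations 2) {M : Type} (S : L.Structure M) : Prop :=
  ∀ (B : Type) (_ : LinearOrder B) (π : M → B), IsSum lt S π → ∀ u v : M, π u = π v

/-- The infinite indecomposable summands of the models on `ℕ` of the complete theory of the
structure `S` on `M` have only countably many isomorphism types. -/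
def FewParts (lt : L.Relations 2) {M : Type} (S : L.Structure M) : Prop :=
  ∃ C : Set (L.Structure ℕ), C.Countable ∧ ∀ S' : L.Structure ℕ,
    @Theory.Model L ℕ S' {φ | @Sentence.Realize L M S φ} →
      ∀ (B : Type) (_ : LinearOrder B) (π : ℕ → B), IsSum lt S' π → ∀ b : B,
        Infinite {u : ℕ // π u = b} → Indecomposable lt (summand S' π b) →
          ∃ S'' ∈ C, Nonempty (@FirstOrder.Language.Equiv L {u : ℕ // π u = b} ℕ
            (summand S' π b) S'')

/-- The sentence `φ` holds in arbitrarily many summands of models of `T`: for each `N` there is a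
model of `T` that is an ordered sum with `N` elements `w 0, ..., w (N - 1)` in different summands
that satisfy `φ`. -/
def Unbounded (lt : L.Relations 2) (T : L.Theory) (φ : L.Sentence) : Prop :=
  ∀ N : ℕ, ∃ S : L.Structure ℕ, @Theory.Model L ℕ S T ∧
    ∃ (B : Type) (_ : LinearOrder B) (π : ℕ → B), IsSum lt S π ∧
      ∃ w : Fin N → ℕ, Function.Injective (fun n => π (w n)) ∧
        ∀ n, @Sentence.Realize L {u : ℕ // π u = π (w n)} (summand S π (π (w n))) φ

/-- There is a continuous family, indexed by the Cantor space, of pairwise non-isomorphic structures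
on `ℕ` each of which is isomorphic to an indecomposable summand of a model on `ℕ` of the complete
theory of the structure `S` on `M`. -/
def PerfectParts (lt : L.Relations 2) {M : Type} (S : L.Structure M) : Prop :=
  ∃ F : (ℕ → Bool) → L.Structure ℕ,
    (∀ (n : ℕ) (R : L.Relations n) (t : Fin n → ℕ), IsClopen {x | (F x).RelMap R t}) ∧
    (∀ x y, Nonempty (@FirstOrder.Language.Equiv L ℕ ℕ (F x) (F y)) → x = y) ∧
    ∀ x, ∃ S' : L.Structure ℕ, @Theory.Model L ℕ S' {φ | @Sentence.Realize L M S φ} ∧
      ∃ (B : Type) (_ : LinearOrder B) (π : ℕ → B), IsSum lt S' π ∧ ∃ b : B,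
        Indecomposable lt (summand S' π b) ∧
          Nonempty (@FirstOrder.Language.Equiv L {u : ℕ // π u = b} ℕ (summand S' π b) (F x))

/-- The dichotomy holds for the infinite indecomposable summands of the models on `ℕ` of the
complete theory of `S`. -/
def TameParts (lt : L.Relations 2) {M : Type} (S : L.Structure M) : Prop :=
  FewParts lt S ∨ PerfectParts lt S

/-- `S` is a coloured linear order: `lt` is a strict linear order, and each other relation symbol
has arity at most one. -/
def ColouredOrder (lt : L.Relations 2) {M : Type} (S : L.Structure M) : Prop :=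
  (∀ u : M, ¬ S.RelMap lt ![u, u]) ∧
  (∀ u v w : M, S.RelMap lt ![u, v] → S.RelMap lt ![v, w] → S.RelMap lt ![u, w]) ∧
  (∀ u v : M, S.RelMap lt ![u, v] ∨ u = v ∨ S.RelMap lt ![v, u]) ∧
  ∀ (n : ℕ) (R : L.Relations n), (⟨n, R⟩ : Σ n, L.Relations n) = ⟨2, lt⟩ ∨ n ≤ 1

/-- The structures `S` and `S'` satisfy the same first-order sentences. -/
def Equivalent {M N : Type} (S : L.Structure M) (S' : L.Structure N) : Prop :=
  ∀ φ : L.Sentence, @Sentence.Realize L M S φ ↔ @Sentence.Realize L N S' φ

/-- `S` is elementarily equivalent to an ordered sum `V` of structures each of which has tame parts,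
or satisfies only sentences that hold in arbitrarily many summands of models of `T`. -/
def Good (lt : L.Relations 2) (T : L.Theory) (S : L.Structure ℕ) : Prop :=
  ∃ V : L.Structure ℕ, Equivalent S V ∧
    ∃ (B : Type) (_ : LinearOrder B) (π : ℕ → B), IsSum lt V π ∧ ∀ b : B,
      TameParts lt (summand V π b) ∨
      ∀ φ : L.Sentence, @Sentence.Realize L {u : ℕ // π u = b} (summand V π b) φ →
        Unbounded lt T φ

omit [L.IsRelational] in
theorem sm_of {lt : L.Relations 2} {B : Type} [LinearOrder B] {S : L.Structure ℕ} {π : ℕ → B}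
    (h : IsSum lt S π) : SM (Idx := Σ n, L.Relations n) (a := ar L) ⟨2, lt⟩ (interpOf S) π := by
  refine ⟨fun u v huv => h.1 u v huv, fun i t ht => ?_⟩
  rcases h.2 i.1 i.2 t ht with h1 | ⟨h1, u, v, h2, h3⟩
  · exact Or.inl h1
  · exact Or.inr ⟨h1, u, v, funext h2, h3⟩

theorem sat_iff (S : L.Structure ℕ) {B : Type} (π : ℕ → B) (b : B) (φ : L.Sentence) :
    SatX (interpOf S) {v | π v = b} φ ↔
      @Sentence.Realize L {u : ℕ // π u = b} (summand S π b) φ := Iff.rfl

theorem rec_of {lt : L.Relations 2} {T : L.Theory} {φ : L.Sentence} (h : Unbounded lt T φ) :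
    Rec (⟨2, lt⟩ : Σ n, L.Relations n) T φ := by
  intro N
  obtain ⟨S, hS, B, _, π, hπ, w, hw, h1⟩ := h N
  exact ⟨interpOf S, (riso_interpOf S).model hS, B, inferInstance, π, sm_of hπ,
    fun n => π (w n), hw, fun n => (sat_iff S π (π (w n)) φ).2 (h1 n)⟩

theorem model_univ (S : L.Structure ℕ) (φ : L.Sentence) :
    SatX (interpOf S) Set.univ φ ↔ @Sentence.Realize L ℕ S φ := by
  have h0 : RIso S (sub (strOf (interpOf S)) Set.univ) := (riso_interpOf S).trans (riso_univ _)
  have key : ∀ (M N : Type) (SM : L.Structure M) (SN : L.Structure N), RIso SM SN →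
      @Sentence.Realize L M SM φ → @Sentence.Realize L N SN φ := by
    intro M N SM SN h hM
    have h1 : @Theory.Model L M SM {φ} := @Theory.Model.mk L M SM {φ} fun φ' hφ' => by
      rw [Set.mem_singleton_iff.1 hφ']
      exact hM
    exact @Theory.Model.realize_of_mem L N SN {φ} (h.model h1) φ rfl
  exact ⟨key _ _ _ _ h0.symm, key _ _ _ _ h0⟩

omit [L.IsRelational] in
theorem sm_to' {lt : L.Relations 2} {M B : Type} [LinearOrder B] {S : L.Structure M} {π : M → B}
    (h : IsSum lt S π) : SM (Idx := Σ n, L.Relations n) (a := ar L) ⟨2, lt⟩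
      (fun i t => S.RelMap i.2 t) π := by
  refine ⟨fun u v huv => h.1 u v huv, fun i t ht => ?_⟩
  rcases h.2 i.1 i.2 t ht with h1 | ⟨h1, u, v, h2, h3⟩
  · exact Or.inl h1
  · exact Or.inr ⟨h1, u, v, funext h2, h3⟩

theorem sm_to {lt : L.Relations 2} {B : Type} [LinearOrder B] {I : Interp (ar L) ℕ} {π : ℕ → B}
    (h : SM (⟨2, lt⟩ : Σ n, L.Relations n) I π) : IsSum lt (strOf I) π := by
  refine ⟨fun u v huv => h.lt u v huv, fun n R t ht => ?_⟩
  rcases h.fib ⟨n, R⟩ t ht with h7 | ⟨h7, u, v, h8, h9⟩
  · exact Or.inl h7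
  · exact Or.inr ⟨h7, u, v, fun j => congrFun h8 j, h9⟩

/-- The blocks of a structure are indecomposable. -/
theorem indec_block {lt : L.Relations 2} {B : Type} [LinearOrder B] {J : Interp (ar L) ℕ}
    {π : ℕ → B} (hπ : SM (⟨2, lt⟩ : Σ n, L.Relations n) J π)
    (hπ2 : ∀ x y, π x = π y ↔ same (⟨2, lt⟩ : Σ n, L.Relations n) J x y) (w : ℕ) :
    Indecomposable lt (summand (strOf J) π (π w)) := by
  intro D _ ρ hρ x y
  let P : Set ℕ := {w' | same (⟨2, lt⟩ : Σ n, L.Relations n) J w w'}
  have hmem : ∀ x : {u : ℕ // π u = π w}, x.1 ∈ P := fun x => same_symm ((hπ2 _ _).1 x.2)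
  have hmem' : ∀ x : P, π x.1 = π w := fun x => (hπ2 _ _).2 (same_symm x.2)
  have h1 : SM (⟨2, lt⟩ : Σ n, L.Relations n) (BI J P) (fun x : P => ρ ⟨x.1, hmem' x⟩) := by
    have h2 := sm_to' hρ
    refine ⟨fun u v huv => ?_, fun i t ht => ?_⟩
    · have h3 := h2.lt ⟨u.1, hmem' u⟩ ⟨v.1, hmem' v⟩ huv
      have h4 : J ⟨2, lt⟩ (fun k => ((pr (⟨u.1, hmem' u⟩ : {u : ℕ // π u = π w}) ⟨v.1, hmem' v⟩ :
        Fin 2 → {u : ℕ // π u = π w}) k).1) := h3
      show J ⟨2, lt⟩ (fun k => ((pr u v : Fin 2 → P) k).1)
      have e1 : (fun k => ((pr u v : Fin 2 → P) k).1) = (pr u.1 v.1 : Fin 2 → ℕ) :=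
        pr_map Subtype.val u v
      have e2 : (fun k => ((pr (⟨u.1, hmem' u⟩ : {u : ℕ // π u = π w}) ⟨v.1, hmem' v⟩ :
        Fin 2 → {u : ℕ // π u = π w}) k).1) = (pr u.1 v.1 : Fin 2 → ℕ) :=
        pr_map Subtype.val _ _
      rw [e1]
      rw [e2] at h4
      exact h4
    · rcases h2.fib i (fun j => ⟨(t j).1, hmem' (t j)⟩) ht with h3 | ⟨h3, u, v, h4, h5⟩
      · exact Or.inl h3
      · refine Or.inr ⟨h3, ⟨u.1, hmem u⟩, ⟨v.1, hmem v⟩, ?_, h5⟩
        funext j
        refine Subtype.ext ?_
        have h6 := congrArg Subtype.val (congrFun h4 j)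
        have h7 : (t j).1 = ((pr u v : Fin (ar L i) → {u : ℕ // π u = π w}) j).1 := h6
        rw [h7]
        unfold pr
        split <;> rfl
  have ho : ar L (⟨2, lt⟩ : Σ n, L.Relations n) = 2 := rfl
  have h2 := h1.le ho (conn_block ho J w ⟨x.1, hmem x⟩ ⟨y.1, hmem y⟩)
  have h3 := h1.le ho (conn_block ho J w ⟨y.1, hmem y⟩ ⟨x.1, hmem x⟩)
  exact le_antisymm h2 h3

theorem few_of {lt : L.Relations 2} (S : L.Structure ℕ) {B : Type} (π : ℕ → B) (b : B)
    (h : FewParts lt (summand S π b)) :
    FewB L (⟨2, lt⟩ : Σ n, L.Relations n) (interpOf S) {v | π v = b} := by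
  obtain ⟨C, hC, h1⟩ := h
  have h2 : ∀ J : Interp (ar L) ℕ, (∀ φ, SatX (interpOf S) {v | π v = b} φ → SatX J Set.univ φ) →
      ∀ w, {w' | same (⟨2, lt⟩ : Σ n, L.Relations n) J w w'}.Infinite →
        ∃ S'' ∈ C, ∃ g : ℕ → ℕ,
      (∀ x y, same (⟨2, lt⟩ : Σ n, L.Relations n) J w x →
        same (⟨2, lt⟩ : Σ n, L.Relations n) J w y → g x = g y → x = y) ∧
      (∀ z, ∃ x, same (⟨2, lt⟩ : Σ n, L.Relations n) J w x ∧ g x = z) ∧
      ∀ (i : Σ n, L.Relations n) (t : Fin (ar L i) → ℕ),
        (∀ j, same (⟨2, lt⟩ : Σ n, L.Relations n) J w (t j)) →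
        (J i t ↔ interpOf S'' i (fun j => g (t j))) := by
    classical
    intro J hJ w hw
    obtain ⟨BJ, _, πJ, hπ, hπ2⟩ := SM_blocks (o := (⟨2, lt⟩ : Σ n, L.Relations n)) rfl J
    have hiff : ∀ x, πJ x = πJ w ↔ same (⟨2, lt⟩ : Σ n, L.Relations n) J w x := fun x =>
      (hπ2 x w).trans ⟨same_symm, same_symm⟩
    have hset : {x | πJ x = πJ w} = {w' | same (⟨2, lt⟩ : Σ n, L.Relations n) J w w'} :=
      Set.ext hiff
    have hinf : Infinite {u : ℕ // πJ u = πJ w} := by
      have h3 : {x | πJ x = πJ w}.Infinite := by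
        rw [hset]
        exact hw
      exact h3.to_subtype
    obtain ⟨S'', h3, ⟨e0⟩⟩ := h1 (strOf J) (@Theory.Model.mk L ℕ (strOf J) _ fun φ hφ =>
      (model_univ (strOf J) φ).1 (hJ φ hφ)) BJ inferInstance πJ (sm_to hπ) (πJ w) hinf
        (indec_block hπ hπ2 w)
    let e : {u : ℕ // πJ u = πJ w} ≃ ℕ :=
      @FirstOrder.Language.Equiv.toEquiv L _ _ (summand (strOf J) πJ (πJ w)) S'' e0
    have he : ∀ (n : ℕ) (R : L.Relations n) (t : Fin n → {u : ℕ // πJ u = πJ w}),
        S''.RelMap R (fun j => e (t j)) ↔ J ⟨n, R⟩ (fun j => (t j).1) := fun n R t =>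
      @FirstOrder.Language.Equiv.map_rel' L _ _ (summand (strOf J) πJ (πJ w)) S'' e0 n R t
    refine ⟨S'', h3, fun x => if hx : πJ x = πJ w then e ⟨x, hx⟩ else 0,
      fun x y hx hy hxy => ?_, fun z => ?_, fun i t ht => ?_⟩
    · simp only [dif_pos ((hiff x).2 hx), dif_pos ((hiff y).2 hy)] at hxy
      exact congrArg Subtype.val (e.injective hxy)
    · obtain ⟨x, hx⟩ := e.surjective z
      refine ⟨x.1, (hiff _).1 x.2, ?_⟩
      simp only [dif_pos x.2]
      exact hx
    · have h4 := he i.1 i.2 (fun j => (⟨t j, (hiff _).2 (ht j)⟩ : {u : ℕ // πJ u = πJ w}))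
      have e1 : (fun j => if hx : πJ (t j) = πJ w then e ⟨t j, hx⟩ else 0) =
          fun j => e ⟨t j, (hiff _).2 (ht j)⟩ := by
        funext j
        rw [dif_pos ((hiff _).2 (ht j))]
      show J i t ↔ S''.RelMap i.2 (fun j => if hx : πJ (t j) = πJ w then e ⟨t j, hx⟩ else 0)
      rw [e1]
      exact h4.symm
  rcases C.eq_empty_or_nonempty with h0 | h0
  · refine ⟨fun _ => interpOf S, fun J hJ w hw => ?_⟩
    obtain ⟨S'', h3, -⟩ := h2 J hJ w hw
    rw [h0] at h3
    exact absurd h3 (Set.notMem_empty _)
  · obtain ⟨f, hf⟩ := hC.exists_eq_range h0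
    refine ⟨fun n => interpOf (f n), fun J hJ w hw => ?_⟩
    obtain ⟨S'', h3, h4⟩ := h2 J hJ w hw
    rw [hf] at h3
    obtain ⟨n, rfl⟩ := h3
    exact ⟨n, h4⟩

/-- An indecomposable summand is a block. -/
theorem block_of_indec {lt : L.Relations 2} {B : Type} [LinearOrder B] {S : L.Structure ℕ}
    {π : ℕ → B} (hπ : IsSum lt S π) {u : ℕ} (hind : Indecomposable lt (summand S π (π u)))
    (v : ℕ) : π v = π u ↔ same (⟨2, lt⟩ : Σ n, L.Relations n) (interpOf S) u v := by
  have ho : ar L (⟨2, lt⟩ : Σ n, L.Relations n) = 2 := rfl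
  constructor
  · intro hv
    obtain ⟨D, _, ρ, hρ, hρ2⟩ := SM_blocks ho (interpOf (summand S π (π u)))
    have h1 : IsSum lt (summand S π (π u)) ρ := by
      refine ⟨fun x y h => hρ.lt x y h, fun n R t ht => ?_⟩
      rcases hρ.fib ⟨n, R⟩ t ht with h7 | ⟨h7, x, y, h8, h9⟩
      · exact Or.inl h7
      · exact Or.inr ⟨h7, x, y, fun j => congrFun h8 j, h9⟩
    have h2 := (hρ2 _ _).1 (hind D _ ρ h1 ⟨u, rfl⟩ ⟨v, hv⟩)
    have h3 : FI (interpOf (summand S π (π u))) (fun _ => ()) () (interpOf S) π (π u)
        Subtype.val :=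
      ⟨fun x _ => x.2, fun x y _ _ h => Subtype.ext h, fun w hw => ⟨⟨w, hw⟩, rfl, rfl⟩,
        fun i t _ => Iff.rfl⟩
    exact (same_fib ho (SM_unit _) (sm_of hπ) h3 rfl rfl).1 h2
  · intro h
    exact ((sm_of hπ).same ho h).symm

theorem card_pos (M : Type) (SM : L.Structure M) :
    @Sentence.Realize L M SM (Sentence.cardGe L 1) ↔ Nonempty M := by
  rw [@Sentence.realize_cardGe L M SM 1, Nat.cast_one, Cardinal.one_le_iff_ne_zero,
    Cardinal.mk_ne_zero_iff]

/-- Each model of `T` on `ℕ` is elementarily equivalent to two different summands of some model of `T`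
which is an ordered sum. -/
def Doubled (lt : L.Relations 2) (T : L.Theory) : Prop :=
  ∀ S : L.Structure ℕ, @Theory.Model L ℕ S T → ∃ V : L.Structure ℕ, @Theory.Model L ℕ V T ∧
    ∃ (B : Type) (_ : LinearOrder B) (π : ℕ → B), IsSum lt V π ∧
      ∃ b c : B, b ≠ c ∧ Equivalent S (summand V π b) ∧ Equivalent S (summand V π c)

/-- The models of `T` on `ℕ` with the property `P` have only countably many isomorphism types. -/
def CountablyMany (T : L.Theory) (P : L.Structure ℕ → Prop) : Prop :=
  ∃ C : Set (L.Structure ℕ), C.Countable ∧ ∀ S : L.Structure ℕ, @Theory.Model L ℕ S T →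
    P S → ∃ S' ∈ C, Nonempty (@FirstOrder.Language.Equiv L ℕ ℕ S S')

/-- There is a continuous family, indexed by the Cantor space, of pairwise non-isomorphic models
of `T` on `ℕ`. -/
def PerfectlyMany (T : L.Theory) : Prop :=
  ∃ F : (ℕ → Bool) → L.Structure ℕ, (∀ x, @Theory.Model L ℕ (F x) T) ∧
    (∀ (n : ℕ) (R : L.Relations n) (t : Fin n → ℕ), IsClopen {x | (F x).RelMap R t}) ∧
    ∀ x y, Nonempty (@FirstOrder.Language.Equiv L ℕ ℕ (F x) (F y)) → x = y

theorem eqv_to {M N : Type} {I : Interp (ar L) M} {X : Set M} {J : Interp (ar L) N} {Y : Set N}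
    (h : ∀ φ, SatX I X φ ↔ SatX J Y φ) : Eqv I X J Y := eqv_of fun φ => (h φ).1

/-- A summand of a model of `T` has perfectly many parts. -/
theorem perfect_of_part (hL : Countable L.Symbols) {lt : L.Relations 2} {T : L.Theory}
    {V : L.Structure ℕ} (hV : @Theory.Model L ℕ V T) {B : Type} [LinearOrder B] {π : ℕ → B}
    (hπ : IsSum lt V π) {b : B} (h : PerfectParts lt (summand V π b)) : PerfectlyMany T := by
  obtain ⟨F, hF, hne, h⟩ := h
  have hb : ∃ v, π v = b := by
    obtain ⟨S0, hS0, -⟩ := h fun _ => false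
    have h1 : @Sentence.Realize L {u : ℕ // π u = b} (summand V π b) (Sentence.cardGe L 1) := by
      by_contra hn
      have h2 : @Sentence.Realize L ℕ S0 (Sentence.cardGe L 1).not :=
        @Theory.Model.realize_of_mem L ℕ S0 _ hS0 (Sentence.cardGe L 1).not
          ((@Sentence.realize_not L _ (summand V π b) _).2 hn)
      exact (@Sentence.realize_not L ℕ S0 _).1 h2 ((card_pos ℕ S0).2 ⟨0⟩)
    obtain ⟨u⟩ := (card_pos _ _).1 h1
    exact ⟨u.1, u.2⟩
  obtain ⟨v, rfl⟩ := hb
  obtain ⟨G, g1, g2, g3⟩ := fo_perf (o := (⟨2, lt⟩ : Σ n, L.Relations n)) rfl (V := interpOf V)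
    ((riso_interpOf V).model hV) (sm_of hπ) v hF (fun x y hxy => hne x y (RIso.iff.1 hxy))
    fun x => by
      obtain ⟨S', hS', D, _, ρ, hρ, d, hind, ⟨e0⟩⟩ := h x
      refine ⟨interpOf S', eqv_of fun φ hφ => (model_univ S' φ).2
        (@Theory.Model.realize_of_mem L ℕ S' _ hS' φ hφ), ?_⟩
      let e : {u : ℕ // ρ u = d} ≃ ℕ :=
        @FirstOrder.Language.Equiv.toEquiv L _ _ (summand S' ρ d) (F x) e0
      have he : ∀ (n : ℕ) (R : L.Relations n) (t : Fin n → {u : ℕ // ρ u = d}),
          (F x).RelMap R (fun j => e (t j)) ↔ S'.RelMap R (fun j => (t j).1) := fun n R t =>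
        @FirstOrder.Language.Equiv.map_rel' L _ _ (summand S' ρ d) (F x) e0 n R t
      have hd : ρ (e.symm 0).1 = d := (e.symm 0).2
      refine ⟨fun n => (e.symm n).1, ⟨fun m n h => e.symm.injective (Subtype.ext h),
        fun v => ?_, fun i t => ?_⟩⟩
      · have hind' : Indecomposable lt (summand S' ρ (ρ (e.symm 0).1)) := by
          rw [hd]
          exact hind
        rw [toI_ofI]
        refine Iff.trans ?_ (block_of_indec hρ hind' v)
        rw [hd]
        constructor
        · rintro ⟨n, rfl⟩
          exact (e.symm n).2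
        · intro hv
          exact ⟨e ⟨v, hv⟩, by simp⟩
      · rw [toI_ofI, toI_ofI]
        have h1 := he i.1 i.2 (fun j => e.symm (t j))
        simp only [e.apply_symm_apply] at h1
        exact h1
  exact ⟨G, g1, g2, fun x y h => g3 x y (RIso.iff.2 h)⟩

theorem general (hL : Countable L.Symbols) (lt : L.Relations 2) (T : L.Theory) :
    CountablyMany T (Good lt T) ∨ PerfectlyMany T := by
  by_cases hp : ∃ V : L.Structure ℕ, @Theory.Model L ℕ V T ∧
      ∃ (B : Type) (_ : LinearOrder B) (π : ℕ → B), IsSum lt V π ∧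
        ∃ b : B, PerfectParts lt (summand V π b)
  · obtain ⟨V, hV, B, _, π, hπ, b, hb⟩ := hp
    exact Or.inr (perfect_of_part hL hV hπ hb)
  rcases fo_main5 (o := (⟨2, lt⟩ : Σ n, L.Relations n)) rfl T with
    ⟨C, hC, hC2⟩ | ⟨F, h1, h2, h3⟩
  · left
    refine ⟨C, hC, fun S hS h => ?_⟩
    obtain ⟨V, hSV, B, _, π, hπ, h1⟩ := h
    have hVT : @Theory.Model L ℕ V T := @Theory.Model.mk L ℕ V T fun φ hφ =>
      (hSV φ).1 (@Theory.Model.realize_of_mem L ℕ S T hS φ hφ)
    obtain ⟨S', hS', h2⟩ := hC2 S hS ⟨interpOf V, B, inferInstance, π, sm_of hπ,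
      eqv_to fun φ => ((model_univ S φ).trans (hSV φ)).trans (model_univ V φ).symm, fun v => by
        rcases h1 (π v) with (h2 | h2) | h2
        · exact Or.inl (few_of V π (π v) h2)
        · exact absurd ⟨V, hVT, B, inferInstance, π, hπ, π v, h2⟩ hp
        · exact Or.inr fun φ hφ => rec_of (h2 φ ((sat_iff V π (π v) φ).1 hφ))⟩
    exact ⟨S', hS', RIso.iff.1 h2⟩
  · exact Or.inr ⟨F, h1, h2, fun x y h => h3 x y (RIso.iff.2 h)⟩

/-- The fibre of a summand equivalent to a structure on `ℕ` is nonempty. -/
theorem fibre_ne {S V : L.Structure ℕ} {B : Type} {π : ℕ → B} {b : B}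
    (h : Equivalent S (summand V π b)) : ∃ u, π u = b := by
  obtain ⟨u⟩ := (card_pos _ _).1 ((h _).1 ((card_pos ℕ S).2 ⟨0⟩))
  exact ⟨u.1, u.2⟩

theorem dbl_of {lt : L.Relations 2} {T : L.Theory} (h : Doubled lt T) :
    DblT (⟨2, lt⟩ : Σ n, L.Relations n) T := by
  intro S hS
  obtain ⟨V, hV, B, _, π, hπ, b, c, hbc, hb, hc⟩ := h (strOf S) hS
  obtain ⟨u, rfl⟩ := fibre_ne hb
  obtain ⟨v, rfl⟩ := fibre_ne hc
  refine ⟨interpOf V, (riso_interpOf V).model hV, B, inferInstance, π, sm_of hπ, u, v, hbc,
    eqv_to fun φ => ?_, eqv_to fun φ => ?_⟩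
  · exact (model_univ (strOf S) φ).trans (hb φ)
  · exact (model_univ (strOf S) φ).trans (hc φ)

theorem unbounded_of_dbl {lt : L.Relations 2} {T : L.Theory} (h : Doubled lt T)
    {S : L.Structure ℕ} (hS : @Theory.Model L ℕ S T) {φ : L.Sentence}
    (hφ : @Sentence.Realize L ℕ S φ) : Unbounded lt T φ := by
  intro N
  obtain ⟨k, hk⟩ : ∃ k, N ≤ 2 ^ k := ⟨N, Nat.lt_two_pow_self.le⟩
  obtain ⟨J, ρ, w, h1, h2, h3, h4⟩ := dbl_pow (o := (⟨2, lt⟩ : Σ n, L.Relations n)) rfl (dbl_of h)
    (interpOf S) ((riso_interpOf S).model hS) k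
  refine ⟨strOf J, h1, ℚ, inferInstance, ρ, sm_to h2, fun n => w (Fin.castLE hk n),
    fun n n' hn => Fin.castLE_injective hk (h3 hn), fun n => ?_⟩
  exact ((h4 (Fin.castLE hk n)).sat φ).2 ((model_univ S φ).2 hφ)

theorem doubled (hL : Countable L.Symbols) (lt : L.Relations 2) (T : L.Theory)
    (h : Doubled lt T) : CountablyMany T (fun _ => True) ∨ PerfectlyMany T := by
  rcases general hL lt T with ⟨C, hC, hC2⟩ | h1
  · refine Or.inl ⟨C, hC, fun S hS _ => hC2 S hS ⟨S, fun _ => Iff.rfl, Unit, inferInstance,
      fun _ => (), ⟨fun u v h => absurd h (lt_irrefl _), fun n R t _ => Or.inl fun _ _ => rfl⟩,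
      fun x => Or.inr fun φ hφ => ?_⟩⟩
    refine unbounded_of_dbl h hS ?_
    have hr : RIso (summand S (fun _ => ()) x) S :=
      ⟨⟨fun u => u.1, fun u => ⟨u, rfl⟩, fun _ => rfl, fun _ => rfl⟩, fun _ _ => Iff.rfl⟩
    have h2 : @Theory.Model L _ (summand S (fun _ => ()) x) {φ} :=
      @Theory.Model.mk L _ (summand S (fun _ => ()) x) {φ} fun φ' hφ' => by
        rw [Set.mem_singleton_iff.1 hφ']
        exact hφ
    exact @Theory.Model.realize_of_mem L ℕ S {φ} (hr.model h2) φ rfl
  · exact Or.inr h1

/-- A sentence true in infinitely many nonempty summands of a model of `T` holds in arbitrarily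
many summands of models of `T`. -/
theorem unbounded_of_inf {lt : L.Relations 2} {T : L.Theory} {V : L.Structure ℕ}
    (hV : @Theory.Model L ℕ V T) {B : Type} [LinearOrder B] {π : ℕ → B} (hπ : IsSum lt V π)
    (hp : Function.Surjective π) {φ : L.Sentence}
    (h : {b : B | @Sentence.Realize L {u : ℕ // π u = b} (summand V π b) φ}.Infinite) :
    Unbounded lt T φ := by
  intro N
  have h1 : Infinite {b : B | @Sentence.Realize L {u : ℕ // π u = b} (summand V π b) φ} :=
    h.to_subtype
  let f := Infinite.natEmbedding {b : B | @Sentence.Realize L {u : ℕ // π u = b} (summand V π b) φ}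
  choose g hg using hp
  refine ⟨V, hV, B, inferInstance, π, hπ, fun n => g (f n).1, fun n n' hn => ?_, fun n => ?_⟩
  · have h2 : (f n).1 = (f n').1 := by
      rw [← hg (f n).1, ← hg (f n').1]
      exact hn
    exact Fin.ext (f.injective (Subtype.ext h2))
  · show @Sentence.Realize L {u : ℕ // π u = π (g (f n).1)} (summand V π (π (g (f n).1))) φ
    rw [hg]
    exact (f n).2

theorem recurring (hL : Countable L.Symbols) (lt : L.Relations 2) (B : Type) [LinearOrder B]
    (V : L.Structure ℕ) (π : ℕ → B) (hπ : IsSum lt V π) (hp : Function.Surjective π)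
    (h : ∀ b : B, TameParts lt (summand V π b) ∨ ∀ φ : L.Sentence,
      @Sentence.Realize L {u : ℕ // π u = b} (summand V π b) φ →
        {c : B | @Sentence.Realize L {u : ℕ // π u = c} (summand V π c) φ}.Infinite) :
    CountablyMany {φ : L.Sentence | @Sentence.Realize L ℕ V φ} (fun _ => True) ∨
      PerfectlyMany {φ : L.Sentence | @Sentence.Realize L ℕ V φ} := by
  have hm : @Theory.Model L ℕ V {φ | @Sentence.Realize L ℕ V φ} :=
    @Theory.Model.mk L ℕ V _ fun φ hφ => hφ
  rcases general hL lt {φ | @Sentence.Realize L ℕ V φ} with ⟨C, hC, hC2⟩ | h1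
  · refine Or.inl ⟨C, hC, fun S hS _ => hC2 S hS ⟨V, fun φ => ?_, B, inferInstance, π, hπ,
      fun b => ?_⟩⟩
    · constructor
      · intro h1
        by_contra hn
        have h6 : @Sentence.Realize L ℕ S φ.not :=
          @Theory.Model.realize_of_mem L ℕ S _ hS φ.not ((@Sentence.realize_not L ℕ V φ).2 hn)
        exact (@Sentence.realize_not L ℕ S φ).1 h6 h1
      · intro h1
        exact @Theory.Model.realize_of_mem L ℕ S _ hS φ h1
    · rcases h b with h1 | h1
      · exact Or.inl h1
      · exact Or.inr fun φ hφ => unbounded_of_inf hm hπ hp (h1 φ hφ)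
  · exact Or.inr h1

/-! ### Structures with few parts -/

open scoped FirstOrder

/-- Any two different elements are related by `lt`. -/
def tri (lt : L.Relations 2) : L.Sentence :=
  ∀' ∀' ((lt.boundedFormula₂ (&0) (&1)) ⊔ (((&0) =' (&1)) ⊔ (lt.boundedFormula₂ (&1) (&0))))

omit [L.IsRelational] in
theorem realize_tri {lt : L.Relations 2} {M : Type} (S : L.Structure M) :
    @Sentence.Realize L M S (tri lt) ↔
      ∀ u v : M, S.RelMap lt ![u, v] ∨ u = v ∨ S.RelMap lt ![v, u] := by
  letI := S
  unfold tri Sentence.Realize Formula.Realize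
  simp only [BoundedFormula.realize_all, BoundedFormula.realize_sup, BoundedFormula.realize_rel₂,
    BoundedFormula.realize_bdEqual]
  rfl

omit [L.IsRelational] in
theorem coloured_model {lt : L.Relations 2} {M : Type} {S : L.Structure M} {S' : L.Structure ℕ}
    (h : ColouredOrder lt S)
    (hS : @Theory.Model L ℕ S' {φ | @Sentence.Realize L M S φ}) : ColouredOrder lt S' := by
  obtain ⟨h1, h2, h3, h4⟩ := h
  have hr : ∀ φ : L.Sentence, @Sentence.Realize L M S φ → @Sentence.Realize L ℕ S' φ :=
    fun φ hφ => @Theory.Model.realize_of_mem L ℕ S' _ hS φ hφ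
  have g1 : @Sentence.Realize L ℕ S' lt.irreflexive :=
    hr _ ((@Relations.realize_irreflexive L M S lt).2 ⟨h1⟩)
  have g2 : @Sentence.Realize L ℕ S' lt.transitive :=
    hr _ ((@Relations.realize_transitive L M S lt).2 ⟨h2⟩)
  have g3 : @Sentence.Realize L ℕ S' (tri lt) := hr _ ((realize_tri S).2 h3)
  exact ⟨((@Relations.realize_irreflexive L ℕ S' lt).1 g1).irrefl,
    ((@Relations.realize_transitive L ℕ S' lt).1 g2).trans, (realize_tri S').1 g3, h4⟩

/-- A coloured linear order has few parts: no infinite summand is indecomposable. -/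
theorem few_coloured {lt : L.Relations 2} {M : Type} {S : L.Structure M}
    (h : ColouredOrder lt S) : FewParts lt S := by
  classical
  refine ⟨∅, Set.countable_empty, fun S' hS' B _ π hπ b hinf hind => ?_⟩
  exfalso
  obtain ⟨h1, h2, h3, h4⟩ := coloured_model h hS'
  let F := {u : ℕ // π u = b}
  let r : F → F → Prop := fun u v => S'.RelMap lt ![u.1, v.1]
  have hr : IsStrictTotalOrder F r :=
    { trichotomous := fun u v huv hvu => by
        rcases h3 u.1 v.1 with h5 | h5 | h5
        · exact absurd h5 huv
        · exact Subtype.ext h5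
        · exact absurd h5 hvu
      irrefl := fun u => h1 u.1
      trans := fun u v w => h2 u.1 v.1 w.1 }
  let lo : LinearOrder F := linearOrderOfSTO r
  have h5 := hind F lo id ⟨fun u v huv => ?_, fun n R t ht => ?_⟩
  · obtain ⟨x, y, hxy⟩ := exists_pair_ne F
    exact hxy (h5 x y)
  · have h6 : S'.RelMap lt ![u.1, v.1] := huv
    have e : (fun k : Fin 2 => ((fun j : Fin 2 => if j.val = 0 then u else v) k).1) =
        ![u.1, v.1] := by
      funext k
      fin_cases k <;> rfl
    show S'.RelMap lt (fun k : Fin 2 => ((fun j : Fin 2 => if j.val = 0 then u else v) k).1)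
    rw [e]
    exact h6
  · rcases h4 n R with h6 | h6
    · refine Or.inr ⟨h6, ?_⟩
      cases h6
      refine ⟨t 0, t 1, fun j => ?_, ?_⟩
      · fin_cases j <;> rfl
      · have h7 : S'.RelMap lt (fun k => (t k).1) := ht
        have e : (fun k : Fin 2 => (t k).1) = ![(t 0).1, (t 1).1] := by
          funext k
          fin_cases k <;> rfl
        rw [e] at h7
        exact h7
    · refine Or.inl fun j k => ?_
      have : j = k := Fin.ext (by omega)
      rw [this]

/-- A structure whose theory has countably many models has few parts. -/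
theorem few_models {lt : L.Relations 2} {M : Type} {S : L.Structure M}
    (h : CountablyMany {φ | @Sentence.Realize L M S φ} (fun _ => True)) : FewParts lt S := by
  classical
  obtain ⟨C, hC, h1⟩ := h
  let P : L.Structure ℕ → ℕ → Set ℕ := fun S0 w =>
    {v | same (⟨2, lt⟩ : Σ n, L.Relations n) (interpOf S0) w v}
  have hε : ∀ S0 w, ∃ ε : ℕ → ℕ, (P S0 w).Infinite →
      Function.Injective ε ∧ Set.range ε = P S0 w := by
    intro S0 w
    by_cases h : (P S0 w).Infinite
    · have := h.to_subtype
      obtain ⟨e⟩ : Nonempty (ℕ ≃ P S0 w) := nonempty_equiv_of_countable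
      refine ⟨fun n => (e n).1, fun _ => ⟨fun m n h => e.injective (Subtype.ext h), ?_⟩⟩
      ext v
      constructor
      · rintro ⟨n, rfl⟩
        exact (e n).2
      · intro hv
        exact ⟨e.symm ⟨v, hv⟩, by simp⟩
    · exact ⟨id, fun h' => absurd h' h⟩
  choose ε hε using hε
  let tr : L.Structure ℕ → ℕ → L.Structure ℕ := fun S0 w =>
    strOf fun i t => S0.RelMap i.2 (fun j => ε S0 w (t j))
  refine ⟨⋃ S0 ∈ C, Set.range (tr S0), hC.biUnion fun _ _ => Set.countable_range _,
    fun S' hS' B _ π hπ b hinf hind => ?_⟩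
  obtain ⟨u, rfl⟩ : Nonempty {u : ℕ // π u = b} := inferInstance
  obtain ⟨S'', h2, h3⟩ := h1 S' hS' trivial
  obtain ⟨f, hf⟩ := RIso.iff.2 h3
  have hfs : ∀ v, same (⟨2, lt⟩ : Σ n, L.Relations n) (interpOf S') u v ↔
      same (⟨2, lt⟩ : Σ n, L.Relations n) (interpOf S'') (f u) (f v) := fun v =>
    same_iff f (fun i t => hf i.2 t) u v
  have hP : ∀ v, π v = π u ↔ f v ∈ P S'' (f u) := fun v =>
    (block_of_indec hπ hind v).trans (hfs v)
  have hPinf : (P S'' (f u)).Infinite :=
    Set.infinite_of_injective_forall_mem (f := fun x : {v // π v = π u} => f x.1)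
      (fun x y h => Subtype.ext (f.injective h)) (fun x => (hP _).1 x.2)
  obtain ⟨hi, hr⟩ := hε S'' (f u) hPinf
  have hsur : ∀ x : {v // π v = π u}, ∃ n, ε S'' (f u) n = f x.1 := fun x => by
    have : f x.1 ∈ Set.range (ε S'' (f u)) := by
      rw [hr]
      exact (hP _).1 x.2
    exact this
  choose g hg using hsur
  refine ⟨tr S'' (f u), Set.mem_biUnion h2 ⟨f u, rfl⟩,
    RIso.iff.1 ⟨Equiv.ofBijective g ⟨fun x y h => ?_, fun n => ?_⟩, fun {n} R t => ?_⟩⟩
  · have h4 := congrArg (ε S'' (f u)) h
    rw [hg, hg] at h4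
    exact Subtype.ext (f.injective h4)
  · have h4 : ε S'' (f u) n ∈ P S'' (f u) := by
      rw [← hr]
      exact ⟨n, rfl⟩
    have h5 : π (f.symm (ε S'' (f u) n)) = π u := (hP _).2 (by
      rw [f.apply_symm_apply]
      exact h4)
    refine ⟨⟨_, h5⟩, hi ?_⟩
    rw [hg]
    exact f.apply_symm_apply _
  · show S'.RelMap R (fun k => (t k).1) ↔ S''.RelMap R (fun j => ε S'' (f u) (g (t j)))
    have e : (fun j => ε S'' (f u) (g (t j))) = fun j => f (t j).1 := funext fun j => hg _
    rw [e]
    exact hf R _

/-- If the theory of `S` has perfectly many models, and all models are indecomposable, then `S` has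
perfectly many parts. -/
theorem perfect_parts {lt : L.Relations 2} {M : Type} {S : L.Structure M}
    (h : PerfectlyMany {φ | @Sentence.Realize L M S φ})
    (hi : ∀ S' : L.Structure ℕ, @Theory.Model L ℕ S' {φ | @Sentence.Realize L M S φ} →
      Indecomposable lt S') : PerfectParts lt S := by
  obtain ⟨F, h1, h2, h3⟩ := h
  refine ⟨F, h2, h3, fun x => ⟨F x, h1 x, Unit, inferInstance, fun _ => (),
    ⟨fun u v h => absurd h (lt_irrefl _), fun n R t _ => Or.inl fun _ _ => rfl⟩, (), ?_,
    RIso.iff.1 ⟨⟨fun u => u.1, fun u => ⟨u, rfl⟩, fun _ => rfl, fun _ => rfl⟩,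
      fun _ _ => Iff.rfl⟩⟩⟩
  intro D _ ρ hρ u v
  exact hi (F x) (h1 x) D inferInstance (fun w => ρ ⟨w, rfl⟩)
    ⟨fun u v huv => by
      have h4 : (F x).RelMap lt (fun k : Fin 2 =>
          (if k.val = 0 then (⟨u, rfl⟩ : {w : ℕ // (fun _ : ℕ => ()) w = ()}) else ⟨v, rfl⟩).1) :=
        hρ.1 ⟨u, rfl⟩ ⟨v, rfl⟩ huv
      have e : (fun k : Fin 2 =>
          (if k.val = 0 then (⟨u, rfl⟩ : {w : ℕ // (fun _ : ℕ => ()) w = ()}) else ⟨v, rfl⟩).1) =
          fun k => if k.val = 0 then u else v := by
        funext k
        split <;> rfl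
      rw [e] at h4
      exact h4, fun n R t ht => by
      rcases hρ.2 n R (fun j => ⟨t j, rfl⟩) ht with h4 | ⟨h4, u', v', h5, h6⟩
      · exact Or.inl h4
      · refine Or.inr ⟨h4, u'.1, v'.1, fun j => ?_, h6⟩
        have h7 := congrArg Subtype.val (h5 j)
        have h8 : t j = (if j.val = 0 then u' else v').1 := h7
        rw [h8]
        split <;> rfl⟩ u.1 v.1

theorem result (L : FirstOrder.Language.{0, 0}) [L.IsRelational] (hL : Countable L.Symbols)
    (lt : L.Relations 2) :
    -- infinite ordered sums of pairwise equivalent structures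
    (∀ (B : Type) [LinearOrder B] [Infinite B] (V : L.Structure ℕ) (π : ℕ → B), IsSum lt V π →
      Function.Surjective π → (∀ b c : B, Equivalent (summand V π b) (summand V π c)) →
      CountablyMany {φ : L.Sentence | @Sentence.Realize L ℕ V φ} (fun _ => True) ∨
        PerfectlyMany {φ : L.Sentence | @Sentence.Realize L ℕ V φ}) ∧
    -- ordered sums such that each sentence true in a summand is true in infinitely many
    (∀ (B : Type) [LinearOrder B] (V : L.Structure ℕ) (π : ℕ → B), IsSum lt V π →
      Function.Surjective π →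
      (∀ b : B, TameParts lt (summand V π b) ∨ ∀ φ : L.Sentence,
        @Sentence.Realize L {u : ℕ // π u = b} (summand V π b) φ →
          {c : B | @Sentence.Realize L {u : ℕ // π u = c} (summand V π c) φ}.Infinite) →
      CountablyMany {φ : L.Sentence | @Sentence.Realize L ℕ V φ} (fun _ => True) ∨
        PerfectlyMany {φ : L.Sentence | @Sentence.Realize L ℕ V φ}) ∧
    -- theories closed under ordered doubling
    (∀ T : L.Theory, Doubled lt T → CountablyMany T (fun _ => True) ∨ PerfectlyMany T) ∧
    -- arbitrary theories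
    (∀ T : L.Theory, CountablyMany T (Good lt T) ∨ PerfectlyMany T) ∧
    -- structures with tame parts: the theory has countably many models on `ℕ` (for instance, the
    -- structure is finite), or perfectly many models all of which are indecomposable, or the
    -- structure is a coloured linear order
    ∀ (M : Type) (S : L.Structure M),
      (CountablyMany {φ | @Sentence.Realize L M S φ} (fun _ => True) ∨
        (PerfectlyMany {φ | @Sentence.Realize L M S φ} ∧
          ∀ S' : L.Structure ℕ, @Theory.Model L ℕ S' {φ | @Sentence.Realize L M S φ} →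
            Indecomposable lt S') ∨
        ColouredOrder lt S) → TameParts lt S :=
  ⟨fun B _ _ V π hπ hp hs => recurring hL lt B V π hπ hp fun b => Or.inr fun φ hφ => by
      have e : {c : B | @Sentence.Realize L {u : ℕ // π u = c} (summand V π c) φ} = Set.univ :=
        Set.eq_univ_of_forall fun c => (hs b c φ).1 hφ
      rw [e]
      exact Set.infinite_univ,
    fun B _ V π hπ hp h => recurring hL lt B V π hπ hp h,
    fun T h => doubled hL lt T h,
    fun T => general hL lt T, fun M S h => h.elim (fun h => Or.inl (few_models h))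
      fun h => h.elim (fun h => Or.inr (perfect_parts h.1 h.2)) fun h => Or.inl (few_coloured h)⟩

end Pool.Agent.Results.MP_5df2c5_lc.SmallOrUnboundedSummands
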