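import Pool.Agent.U97.TLO.Chain

set_option autoImplicit false

/-!
# Vaught's conjecture is decided on pairs of linear orders

Vaught's conjecture (perfect-set form, all first-order theories in all countable languages, function
symbols allowed) is equivalent to its restriction to theories of TWO LINEAR ORDERS: theories in a
language with two binary relation symbols whose models with universe `ℕ` are pairs of strict linear
orders. It is also equivalent to its restriction to theories of ONE linear order with an involution.
(For one linear order, even with unary predicates, it holds by Rubin's theorem.)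

The proof: a structure of the finite language of the library `Pool.Agent.W889.FO`, with every element
replaced by an infinite class, is placed as the set of markers in a countable linear order without
endpoints in which every class is dense. The segment from a marker to the next markers is the piece
of the marker; an involution links points of different pieces, and links of seven kinds between
pieces code the relations. The whole structure is axiomatized so that it is determined by the coded
structure up to isomorphism (back and forth). The kinds of the links are coded by replacing points by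
finite runs of adjacent points, and the involution `F` is coded by the second order in which `F x` is
the successor of `x` for `x < F x`.
-/

namespace Pool.Agent.Results.MP_5df2c5_lc.TwoLinearOrders

open FirstOrder FirstOrder.Language
open Pool.Agent.U97.TLO

/-- The dichotomy for the theory `T`: the models with universe `ℕ` fall into countably many
isomorphism classes, or a continuous map from the Cantor space to the space of models has pairwise
non-isomorphic values. -/
def Dichotomy (L : FirstOrder.Language.{0, 0}) (T : L.Theory) : Prop :=
  (∃ g : ℕ → L.Structure ℕ, ∀ S : L.Structure ℕ,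
      @FirstOrder.Language.Theory.Model L ℕ S T →
        ∃ n : ℕ, Nonempty (@FirstOrder.Language.Equiv L ℕ ℕ S (g n))) ∨
  (∃ f : (ℕ → Bool) → L.Structure ℕ,
      (∀ x : ℕ → Bool, @FirstOrder.Language.Theory.Model L ℕ (f x) T) ∧
      (∀ x y : ℕ → Bool,
          Nonempty (@FirstOrder.Language.Equiv L ℕ ℕ (f x) (f y)) → x = y) ∧
      (∀ (n : ℕ) (R : L.Relations n) (a : Fin n → ℕ),
          IsClopen {x : ℕ → Bool | @FirstOrder.Language.Structure.RelMap L ℕ (f x) n R a}) ∧
      (∀ (n : ℕ) (F : L.Functions n) (a : Fin n → ℕ) (b : ℕ),
          IsOpen {x : ℕ → Bool | @FirstOrder.Language.Structure.funMap L ℕ (f x) n F a = b}))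

/-- Vaught's conjecture, perfect-set form, for all theories in all countable languages. -/
def VaughtConjecture : Prop :=
  ∀ L : FirstOrder.Language.{0, 0}, Countable L.Symbols → ∀ T : L.Theory, Dichotomy L T

/-- The language with two binary relation symbols `R2.a`, `R2.b` and no other symbols. -/
abbrev L₂ : FirstOrder.Language.{0, 0} := Pool.Agent.U97.TLO.L2

/-- The first relation of a structure. -/
def rel₁ (S : L₂.Structure ℕ) (x y : ℕ) : Prop :=
  @FirstOrder.Language.Structure.RelMap L₂ ℕ S 2 R2.a ![x, y]

/-- The second relation of a structure. -/
def rel₂ (S : L₂.Structure ℕ) (x y : ℕ) : Prop :=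
  @FirstOrder.Language.Structure.RelMap L₂ ℕ S 2 R2.b ![x, y]

/-- The two relations are strict linear orders. -/
def PairOfOrders (S : L₂.Structure ℕ) : Prop :=
  IsStrictTotalOrder ℕ (rel₁ S) ∧ IsStrictTotalOrder ℕ (rel₂ S)

/-- The first relation is a strict linear order, the second one is the graph of an involution. -/
def OrderWithInvolution (S : L₂.Structure ℕ) : Prop :=
  IsStrictTotalOrder ℕ (rel₁ S) ∧
    ∃ f : ℕ → ℕ, Function.Involutive f ∧ ∀ x y, rel₂ S x y ↔ f x = y

lemma pr_eq {A : Type} (x y : A) : pr x y = ![x, y] := by
  funext j
  fin_cases j <;> rfl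

lemma ra_eq (S : L₂.Structure ℕ) : ra S = rel₁ S := by
  funext x y
  unfold ra rel₁
  rw [pr_eq]

lemma rb_eq (S : L₂.Structure ℕ) : rb S = rel₂ S := by
  funext x y
  unfold rb rel₂
  rw [pr_eq]

lemma strict_of_slin {lt : ℕ → ℕ → Prop} (h : SLin lt) : IsStrictTotalOrder ℕ lt :=
  { trichotomous := fun x y h1 h2 => by
      rcases h.tot x y with h3 | h3 | h3
      · exact h3
      · exact absurd h3 h1
      · exact absurd h3 h2
    irrefl := h.irr
    trans := h.tr }

lemma inv_of {F : ℕ → ℕ → Prop} (h : Invo F) :
    ∃ f : ℕ → ℕ, Function.Involutive f ∧ ∀ x y, F x y ↔ f x = y := by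
  choose f hf using h.ex
  exact ⟨f, fun x => h.uni _ _ _ (hf (f x)) (h.sym _ _ (hf x)),
    fun x y => ⟨fun h1 => h.uni _ _ _ (hf x) h1, fun h1 => h1 ▸ hf x⟩⟩

open Pool.Agent.W889.FO in
lemma full_of_LB (h : ∀ T' : StB.LB.Theory, Vaught StB.LB T') : VaughtConjecture := by
  intro L hL T
  have := St0.countable_LF (L := L)
  exact St0.reduce L (fun T' => reduceAB h (St0.LF L) T') T

/-- Vaught's conjecture (perfect-set form, all theories in all countable languages) is equivalent to
its restriction to theories of two linear orders, and to its restriction to theories of a linear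
order with an involution. -/
theorem result :
    ((∀ T : L₂.Theory,
        (∀ S : L₂.Structure ℕ, @Theory.Model L₂ ℕ S T → PairOfOrders S) → Dichotomy L₂ T) ↔
      VaughtConjecture) ∧
    ((∀ T : L₂.Theory,
        (∀ S : L₂.Structure ℕ, @Theory.Model L₂ ℕ S T → OrderWithInvolution S) →
          Dichotomy L₂ T) ↔
      VaughtConjecture) := by
  refine ⟨⟨fun h => ?_, fun h T _ => h _ countable_L2_symbols T⟩,
    ⟨fun h => ?_, fun h T _ => h _ countable_L2_symbols T⟩⟩
  · refine full_of_LB (red_0 (red_B (red_C fun T hT => ?_)))
    refine (Pool.Agent.W889.FO.vaughtF_iff _ T).1 (h T fun S hS => ?_)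
    have h1 := hT S hS
    refine ⟨?_, ?_⟩
    · rw [← ra_eq]
      exact strict_of_slin h1.lin
    · rw [← rb_eq]
      exact strict_of_slin h1.lin2
  · refine full_of_LB (red_0 (red_B fun T hT => ?_))
    refine (Pool.Agent.W889.FO.vaughtF_iff _ T).1 (h T fun S hS => ?_)
    have h1 := (hT S hS).1
    refine ⟨?_, ?_⟩
    · rw [← ra_eq]
      exact strict_of_slin h1.lin
    · rw [← rb_eq]
      exact inv_of h1.inv

end Pool.Agent.Results.MP_5df2c5_lc.TwoLinearOrders
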